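import Pool.Agent.Run7.h878.LF.Fin
import Pool.Agent.R129.Sh.Short

/-!
# Short cycle covers: graphs without an induced linear forest (MP_95e9b3_co)

Let `G` be a finite multigraph without cut edges, and let `F` be the union of a chain of pieces. If
the contracted graph `G / F` does not contain one of the linear forests `P9 + P1`, `P5 + 2 P2`,
`P4 + 2 P2 + P1`, `P4 + 4 P1`, `P3 + P2 + 3 P1` as an induced subgraph (for instance, if there is no
induced matching with four edges, or if every induced path with nine vertices is dominating), then
the edges of `G` are covered by circuits of total length at most 7/5 times the number of edges.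

Here a chain is a sequence of sets of edges (pieces), and `F` is their union; every piece is a circuit
or ear with at most four new edges, or any set without bridge modulo the earlier pieces with at most
four new edges, or a doubly connected set. For the empty chain the condition is a condition on `G`
itself. The five linear forests contain every linear forest with at most eight vertices and at most
five components except `P2 + 2 P3`; so the theorem holds for graphs without an induced `L`, for every
such linear forest `L`.

Proof. Assume that there is no nowhere-zero 4-flow and no Petersen quotient, and contract disjoint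
connected sets as long as this remains true. By the starting library (`R140/PK`, `R890/FF`) the
result `H` has no circuits with at most four edges, no vertices with one or two neighbours, at least 18
vertices of odd degree, one component with edges, and an induced path with eight vertices. A
computer search, whose certificate is checked by the kernel (`Run7/h878/LF`), shows that `H` contains
each of the five linear forests as an induced subgraph. Induced linear
forests of a contraction can be lifted to the graph. Here and for the class of a Petersen quotient
(the other side of which contains a connected set with all ends of the three edges) only connected sets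
are contracted, and this is compatible with the contraction of the chain (`N410/DC`).
The map of the edges to the edges of the Petersen graph which this induction gives (preimages of cycles are cycles)
yields twenty covers; one of them has total length at most 7/5 times the number of edges.
-/

set_option autoImplicit false

namespace Pool.Agent.Results.MP_95e9b3_co.InducedLinearForests

open Finset Pool.Agent.H160R2.CC Pool.Agent.H160R2.CC.MGraph

/-- The edges with exactly one end in `X`. -/
def boundary (G : MGraph) (X : Finset G.V) : Finset G.E :=
  univ.filter (fun e => ¬ (G.src e ∈ X ↔ G.tgt e ∈ X))

/-- The union of the sets `C j` with `j < i`. -/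
def earlier {E : Type} [DecidableEq E] {m : ℕ} (C : Fin m → Finset E) (i : Fin m) : Finset E :=
  (univ.filter (fun j => j < i)).biUnion C

/-- `H` can be added to the chain after `F`: either (short) `H` has at most four edges outside `F`
and no bridge modulo `F`: no set `Y` of vertices without boundary edges in `F` has exactly one
boundary edge in `H`; or (doubly connected) `H` contains two disjoint sets each of which connects,
modulo `F`, whatever `H` connects: every set `Y` of vertices without boundary edges in `F` and with
a boundary edge in `H` has boundary edges in both sets. -/
def Adds (G : MGraph) (F H : Finset G.E) : Prop :=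
  ((H \ F).card ≤ 4 ∧ ∀ Y : Finset G.V, Disjoint (boundary G Y) F →
    (boundary G Y ∩ H).card ≠ 1) ∨
  ∃ T₁ T₂ : Finset G.E, T₁ ⊆ H ∧ T₂ ⊆ H ∧ Disjoint T₁ T₂ ∧ ∀ Y : Finset G.V,
    Disjoint (boundary G Y) F → ¬ Disjoint (boundary G Y) H →
      ¬ Disjoint (boundary G Y) T₁ ∧ ¬ Disjoint (boundary G Y) T₂

/-- The map `r` contracts the edges of `F` and nothing else: the ends of every edge of `F` have the
same image, and no set `Y` of vertices without boundary edges in `F` separates `v` and `r v` (so `v`
and `r v` are in the same component of the graph formed by the edges of `F`). The contracted graph is
the graph in which the ends of the edge `e` are the images of the ends of `e`. -/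
def Contracts (G : MGraph)
    (F : Finset G.E) (r : G.V → G.V) : Prop :=
  (∀ e ∈ F, r (G.src e) = r (G.tgt e)) ∧
    ∀ v, ∀ Y : Finset G.V, Disjoint (boundary G Y) F → (v ∈ Y ↔ r v ∈ Y)

/-- The vertices `x` and `y` are different and joined by an edge. -/
def Adjacent {V E : Type} (s t : E → V) (x y : V) : Prop :=
  x ≠ y ∧ ∃ e, (s e = x ∧ t e = y) ∨ (s e = y ∧ t e = x)

/-- The graph has an induced subgraph without isolated vertices of the graph which is the disjoint
union of paths; the list `ks` contains the numbers of vertices of the paths. The paths are the lists
in `P`: two vertices of a path are adjacent if and only if they are consecutive in the list, and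
vertices of different paths are different and not adjacent. Every vertex has a neighbour in the
whole graph. -/
def HasLinearForest {V E : Type} (s t : E → V) (ks : List ℕ) : Prop :=
  ∃ P : List (List V), P.map List.length = ks ∧ (∀ l ∈ P, ∀ x ∈ l, ∃ y, Adjacent s t x y) ∧
    (∀ l ∈ P, ∀ (i j : ℕ) (hi : i < l.length) (hj : j < l.length), i < j →
      l[i] ≠ l[j] ∧ (Adjacent s t l[i] l[j] ↔ i + 1 = j)) ∧
    P.Pairwise (fun l l' => ∀ x ∈ l, ∀ y ∈ l', x ≠ y ∧ ¬ Adjacent s t x y)

/-- One of the linear forests `P9 + P1`, `P5 + 2 P2`, `P4 + 2 P2 + P1`, `P4 + 4 P1` and
`P3 + P2 + 3 P1` is not an induced subgraph. (For instance, there is no induced matching with four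
edges, or no induced path with nine vertices.) -/
def MissesLinearForest {V E : Type} (s t : E → V) : Prop :=
  ∃ ks ∈ ([[9, 1], [5, 2, 2], [4, 2, 2, 1], [4, 1, 1, 1, 1], [3, 2, 1, 1, 1]] : List (List ℕ)),
    ¬ HasLinearForest s t ks

/-- For some chain of sets of edges with union `F` (for instance the empty chain) the graph which
arises by the contraction of the edges of `F` has the property above: one of the five
linear forests is missing. -/
def ForestsModuloPieces (G : MGraph) : Prop :=
  ∃ (m : ℕ) (C : Fin m → Finset G.E) (r : G.V → G.V), (∀ i, Adds G (earlier C i) (C i)) ∧
    Contracts G (univ.biUnion C) r ∧ MissesLinearForest (fun e => r (G.src e)) (fun e => r (G.tgt e))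

/-- the edge set of a circuit (a cycle of the problem): a minimal nonempty even set of edges -/
def IsCircuit (G : MGraph) (C : Finset G.E) : Prop :=
  C.Nonempty ∧ G.IsCycle C ∧ ∀ D ⊆ C, D.Nonempty → G.IsCycle D → D = C

/-- Every finite graph without cut-edge (loops and parallel edges allowed) which satisfies the
condition above: the edges of `G` are covered by circuits of total length at most 7/5 times the number of edges. -/
theorem result (G : MGraph) (hB : ¬ G.HasCutEdge) (h : ForestsModuloPieces G) :
    ∃ F : Multiset (Finset G.E), (∀ C ∈ F, IsCircuit G C) ∧ (∀ e, ∃ C ∈ F, e ∈ C) ∧
      5 * (F.map Finset.card).sum ≤ 7 * Fintype.card G.E := by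
  obtain ⟨m, C, r, hC, hr, ks, hks, hO⟩ := h
  have hS : Succ G petersen := by
    rcases List.mem_cons.1 hks with rfl | hks
    · exact Run7.h878.LF.succ_nice G (Run7.h878.LF.CCl.nice Run7.h878.LF.unavA) hB
        (Run7.h878.LF.CCl.of_steps hC hr (fun h => hO (Run7.h878.LF.hasF_iff.1 h)))
    · exact Run7.h878.LF.succ_nice G (Run7.h878.LF.CCl.nice (Run7.h878.LF.unavB ks hks)) hB
        (Run7.h878.LF.CCl.of_steps hC hr (fun h => hO (Run7.h878.LF.hasF_iff.1 h)))
  exact Pool.Agent.R129.Sh.short G hS

end Pool.Agent.Results.MP_95e9b3_co.InducedLinearForests
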